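import Pool.Agent.UGen.Main

/-! No generic degree is minimal. -/

set_option autoImplicit false

namespace Pool.Agent.H946Z.Gen

open Pool.Agent.UGen Filter

/-- Generic descriptions as sets of pairs. -/
def GD (A : Set ℕ) (G : Set (ℕ × ℕ)) : Prop :=
  (∀ x y : ℕ, (x, y) ∈ G → ((x ∈ A ∧ y = 1) ∨ (x ∉ A ∧ y = 0))) ∧ D1 {x : ℕ | ∃ y : ℕ, (x, y) ∈ G}

/-- The value of an enumeration operator. -/
def app (V : List (ℕ × ℕ) × (ℕ × ℕ) → Prop) (G : Set (ℕ × ℕ)) : Set (ℕ × ℕ) :=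
  {p | ∃ l : List (ℕ × ℕ), (∀ q ∈ l, q ∈ G) ∧ V (l, p)}

/-- Generic reducibility. -/
def Red (A B : Set ℕ) : Prop :=
  ∃ V : List (ℕ × ℕ) × (ℕ × ℕ) → Prop, REPred V ∧ ∀ G, GD B G → GD A (app V G)

theorem re_index {α : Type} [Primcodable α] [Inhabited α] {R : α → Prop} (hR : REPred R) :
    ∃ e, ∀ a, R a ↔ W e (Encodable.encode a) := by
  have h : REPred fun n : ℕ => R ((Encodable.decode (α := α) n).getD default) :=
    REPred.comp' hR (Primrec.option_getD.comp Primrec.decode (Primrec.const default)).to_comp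
  obtain ⟨e, he⟩ := exists_W h
  exact ⟨e, fun a => by rw [← he]; simp⟩

theorem re_ex {α β : Type} [Primcodable α] [Primcodable β] [Inhabited α] [Inhabited β]
    {R : α × β → Prop} (hR : REPred R) : REPred fun a => ∃ b, R (a, b) := by
  obtain ⟨e, he⟩ := re_index hR
  have hc : Computable₂ fun (a : α) (v : ℕ) => Ws e v.unpair.2
      (Encodable.encode (a, (Encodable.decode (α := β) v.unpair.1).getD default)) := by
    apply Primrec.to_comp
    refine primrec_Ws.comp (f := fun q : ℕ × ℕ × ℕ => Ws q.1 q.2.1 q.2.2)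
      (g := fun q : α × ℕ => (e, q.2.unpair.2,
        Encodable.encode (q.1, (Encodable.decode (α := β) q.2.unpair.1).getD default))) ?_
    refine (Primrec.const e).pair ((Primrec.snd.comp (Primrec.unpair.comp Primrec.snd)).pair ?_)
    refine Primrec.encode.comp (Primrec.fst.pair ?_)
    exact Primrec.option_getD.comp
      (Primrec.decode.comp (Primrec.fst.comp (Primrec.unpair.comp Primrec.snd)))
      (Primrec.const default)
  refine (REPred.ex hc).of_eq fun a => ?_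
  constructor
  · rintro ⟨v, hv⟩
    exact ⟨_, (he _).2 ⟨_, hv⟩⟩
  · rintro ⟨b, hb⟩
    obtain ⟨u, hu⟩ := (he _).1 hb
    exact ⟨Nat.pair (Encodable.encode b) u, by simpa using hu⟩

theorem re_app {V : List (ℕ × ℕ) × (ℕ × ℕ) → Prop} (hV : REPred V) {P : ℕ × ℕ → Prop}
    [DecidablePred P] (hP : PrimrecPred P) : REPred fun p => p ∈ app V {q | P q} := by
  have h1 : PrimrecPred fun l : List (ℕ × ℕ) => ∀ q ∈ l, P q := hP.forall_mem_list
  have h2 : Computable fun x : (ℕ × ℕ) × List (ℕ × ℕ) => decide (∀ q ∈ x.2, P q) :=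
    (h1.comp Primrec.snd).decide.to_comp
  have h3 : REPred fun x : (ℕ × ℕ) × List (ℕ × ℕ) => V (x.2, x.1) :=
    REPred.comp' hV (Primrec.snd.pair Primrec.fst).to_comp
  refine (re_ex (REPred.and_bool h3 h2)).of_eq fun p => ?_
  simp [app]

theorem d1_univ : D1 Set.univ := by
  rw [D1_iff]
  intro ε hε
  refine ⟨0, fun m _ => ?_⟩
  simp
  positivity

theorem d1_Ici (n : ℕ) : D1 (Set.Ici n) := by
  rw [D1_iff]
  intro ε hε
  obtain ⟨M, hM⟩ := exists_nat_ge (n / ε)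
  refine ⟨M, fun m hm => ?_⟩
  have h1 : ((Set.Ici n)ᶜ ∩ Set.Iio m).ncard ≤ n := by
    have : ((Set.Ici n)ᶜ ∩ Set.Iio m).ncard ≤ (Set.Iio n).ncard :=
      Set.ncard_le_ncard (fun x hx => by simpa using hx.1) (Set.finite_Iio n)
    simpa using this
  have h2 : (M : ℝ) ≤ m := by exact_mod_cast hm
  rw [div_le_iff₀ hε] at hM
  have h3 : (((Set.Ici n)ᶜ ∩ Set.Iio m).ncard : ℝ) ≤ n := by exact_mod_cast h1
  nlinarith

theorem red_of_re {A : Set ℕ} {G : Set (ℕ × ℕ)} (hG : REPred fun p => p ∈ G) (h : GD A G) :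
    Red A ∅ := by
  refine ⟨fun x => x.2 ∈ G, REPred.comp' hG Computable.snd, fun G' _ => ?_⟩
  have : app (fun x => x.2 ∈ G) G' = G := by
    ext p
    exact ⟨fun ⟨_, _, h⟩ => h, fun h => ⟨[], by simp, h⟩⟩
  rwa [this]

theorem red_of_gc {A : Set ℕ} (h : GC A) : Red A ∅ := by
  obtain ⟨φ, hφ, h1, h2⟩ := h
  have hre : REPred fun p : ℕ × ℕ => ∃ b ∈ φ p.1, p.2 = cond b 1 0 := by
    have h3 : Partrec fun p : ℕ × ℕ => (φ p.1).bind fun b =>
        cond (decide (p.2 = cond b 1 0)) (Part.some ()) Part.none := by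
      apply Partrec.bind (hφ.comp Computable.fst)
      show Partrec fun q : (ℕ × ℕ) × Bool =>
        cond (decide (q.1.2 = cond q.2 1 0)) (Part.some ()) Part.none
      refine Partrec.cond ?_ (Computable.const ()).partrec Partrec.none
      exact (Primrec.eq.comp (Primrec.snd.comp Primrec.fst)
        (Primrec.cond Primrec.snd (Primrec.const 1) (Primrec.const 0))).decide.to_comp
    refine h3.dom_re.of_eq fun p => ?_
    simp only [Part.bind_dom]
    constructor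
    · rintro ⟨h, h'⟩
      refine ⟨(φ p.1).get h, Part.get_mem h, ?_⟩
      by_contra hc
      simp [hc] at h'
    · rintro ⟨v, ⟨h, hv⟩, hp⟩
      exact ⟨h, by rw [hv]; simp [hp]⟩
  refine red_of_re (G := {p | ∃ b ∈ φ p.1, p.2 = cond b 1 0}) hre ⟨?_, ?_⟩
  · rintro x y ⟨b, hb, hy⟩
    have := h1 x b hb
    cases b
    · right; exact ⟨fun hx => by simpa using this.2 hx, hy⟩
    · left; exact ⟨this.1 rfl, hy⟩
  · refine D1.mono (show D1 {n | (φ n).Dom} from h2) fun x hx => ?_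
    exact ⟨_, (φ x).get hx, Part.get_mem hx, rfl⟩

theorem gc_of_re {B S : Set ℕ} (hS : REPred fun n => n ∈ S) (h1 : S ⊆ B) (h2 : D1 S) : GC B := by
  refine ⟨fun n => (Part.assert (n ∈ S) fun _ => Part.some ()).map fun _ => true,
    Partrec.map hS (Computable.const true).to₂, ?_, ?_⟩
  · intro n b hb
    simp only [Part.mem_map_iff, Part.mem_assert_iff] at hb
    obtain ⟨_, ⟨hn, _⟩, rfl⟩ := hb
    exact ⟨fun _ => h1 hn, fun _ => rfl⟩
  · refine D1.mono h2 fun n hn => ?_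
    exact ⟨hn, trivial⟩

/-- Every superset of the density-one set given by the start theorem is reducible to `A`. -/
theorem exists_base {A : Set ℕ} (hA : ¬ Red A ∅) :
    ∃ B : Set ℕ, ¬ GC B ∧ D1 B ∧ ∀ C, B ⊆ C → Red C A := by
  obtain ⟨B, ⟨V, hV, hVB⟩, hB, hD⟩ := main A fun h => hA (red_of_gc h)
  refine ⟨B, hB, hD, fun C hC => ⟨fun x => decide (x.2.2 = 1) = true ∧
    V (Nat.pair x.2.1 1, x.1.map fun q => Nat.pair q.1 q.2), ?_, fun G hG => ?_⟩⟩
  · refine REPred.and_bool (REPred.comp' hV ?_) ?_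
    · apply Primrec.to_comp
      refine Primrec.pair (Primrec₂.natPair.comp (Primrec.fst.comp Primrec.snd)
        (Primrec.const 1)) ?_
      exact Primrec.list_map Primrec.fst (Primrec₂.natPair.comp
        (Primrec.fst.comp Primrec.snd) (Primrec.snd.comp Primrec.snd)).to₂
    · exact (Primrec.eq.comp (Primrec.snd.comp Primrec.snd) (Primrec.const 1)).decide.to_comp
  · have hX : IsDesc A ((fun q : ℕ × ℕ => Nat.pair q.1 q.2) '' G) := by
      refine ⟨?_, D1.mono hG.2 ?_⟩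
      · rintro _ ⟨⟨x, y⟩, hq, rfl⟩
        refine ⟨x, y, rfl, ?_⟩
        rcases hG.1 x y hq with h | h
        · exact Or.inl ⟨h.2, h.1⟩
        · exact Or.inr ⟨h.2, h.1⟩
      · rintro x ⟨y, hy⟩
        exact ⟨y, (x, y), hy, rfl⟩
    have hY := hVB _ hX
    refine ⟨?_, D1.mono (hY.dom.inter hD) ?_⟩
    · rintro x y ⟨l, hl, hy, hv⟩
      have hy1 : y = 1 := by simpa using hy
      obtain ⟨n, j, h1, h2⟩ := hY.1 (Nat.pair x 1) ⟨_, by
        intro z hz
        obtain ⟨q, hq, rfl⟩ := List.mem_map.1 hz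
        exact ⟨q, hl q hq, rfl⟩, hv⟩
      obtain ⟨rfl, rfl⟩ := Nat.pair_eq_pair.1 h1
      rcases h2 with h | h
      · exact Or.inl ⟨hC h.2, hy1⟩
      · exact absurd h.1 one_ne_zero
    · rintro x ⟨⟨j, hj⟩, hxB⟩
      obtain ⟨n, j', h1, h2⟩ := hY.1 _ hj
      obtain ⟨rfl, rfl⟩ := Nat.pair_eq_pair.1 h1
      have hj1 : j = 1 := by
        rcases h2 with h | h
        · exact h.1
        · exact absurd hxB h.2
      subst hj1
      obtain ⟨l, hl, hv⟩ := hj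
      refine ⟨1, l.map Nat.unpair, ?_, by simp, ?_⟩
      · intro q hq
        obtain ⟨z, hz, rfl⟩ := List.mem_map.1 hq
        obtain ⟨q', hq', rfl⟩ := hl z hz
        simpa using hq'
      · simpa [List.map_map, Function.comp_def] using hv

/-- The positive description of a set. -/
def pos (C : Set ℕ) : Set (ℕ × ℕ) := {q | q.1 ∈ C ∧ q.2 = 1}

theorem gd_pos {C : Set ℕ} (h : D1 C) : GD C (pos C) :=
  ⟨fun _ _ h => Or.inl h, D1.mono h fun _ hx => ⟨1, hx, rfl⟩⟩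

theorem app_mono (V : List (ℕ × ℕ) × (ℕ × ℕ) → Prop) {G H : Set (ℕ × ℕ)} (h : G ⊆ H) :
    app V G ⊆ app V H := fun _ ⟨l, hl, hv⟩ => ⟨l, fun q hq => h (hl q hq), hv⟩

/-- `C` omits `F` and contains everything else below `n`. -/
def Follows (C : Set ℕ) (s : Finset ℕ × ℕ) : Prop :=
  (∀ x ∈ s.1, x ∉ C) ∧ ∀ x < s.2, x ∉ s.1 → x ∈ C

theorem step {A B : Set ℕ} (hA : ¬ Red A ∅) (hB : ¬ GC B)
    {V : List (ℕ × ℕ) × (ℕ × ℕ) → Prop} (hV : REPred V) (s : Finset ℕ × ℕ)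
    (hs : ∀ x ∈ s.1, x ∉ B) :
    ∃ t : Finset ℕ × ℕ, (∀ x ∈ t.1, x ∉ B) ∧ s.1 ⊆ t.1 ∧ s.2 ≤ t.2 ∧
      (∀ x ∈ t.1, x < t.2 → x ∈ s.1) ∧
      ∀ C, Follows C t → D1 C → ¬ GD A (app V (pos C)) ∧ ¬ GD C (app V {q | q.2 = 0}) := by
  obtain ⟨F, n⟩ := s
  have hP : PrimrecPred fun q : ℕ × ℕ => q.1 ∉ F ∧ q.2 = 1 := by
    refine PrimrecPred.and ?_ (Primrec.eq.comp Primrec.snd (Primrec.const 1))
    have : PrimrecPred fun q : ℕ × ℕ => ∀ y ∈ F.toList, ¬ q.1 = y :=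
      PrimrecRel.forall_mem_list (R := fun (y : ℕ) (q : ℕ × ℕ) => ¬ q.1 = y)
        (Primrec.eq.comp (Primrec.fst.comp Primrec.snd) Primrec.fst).not |>.comp
        (Primrec.const F.toList) Primrec.id
    refine this.of_eq fun q => ?_
    simp only [Finset.mem_toList]
    exact ⟨fun h hq => h _ hq rfl, fun h y hy e => h (e ▸ hy)⟩
  have h1 : ¬ GD A (app V {q | q.1 ∉ F ∧ q.2 = 1}) := fun h => hA (red_of_re (re_app hV hP) h)
  have h2 : ∃ m, n ≤ m ∧ ∀ C : Set ℕ, (∀ x ∈ F, x ∉ C) → (∀ x < m, x ∉ F → x ∈ C) →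
      ¬ GD A (app V (pos C)) := by
    by_cases hw : ∀ x y : ℕ, (x, y) ∈ app V {q | q.1 ∉ F ∧ q.2 = 1} →
        ((x ∈ A ∧ y = 1) ∨ (x ∉ A ∧ y = 0))
    · refine ⟨n, le_rfl, fun C hC _ h => h1 ⟨hw, D1.mono h.2 ?_⟩⟩
      rintro x ⟨y, hy⟩
      have hsub : pos C ⊆ {q : ℕ × ℕ | q.1 ∉ F ∧ q.2 = 1} := fun q hq =>
        And.intro (fun hF => hC _ hF hq.1) hq.2
      exact ⟨y, app_mono V hsub hy⟩
    · push Not at hw
      obtain ⟨x, y, ⟨l, hl, hv⟩, hw⟩ := hw
      obtain ⟨M, hM⟩ := (l.map Prod.fst).toFinset.bddAbove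
      refine ⟨max n (M + 1), le_max_left _ _, fun C _ hC h => ?_⟩
      have hlC : ∀ q ∈ l, q ∈ pos C := by
        intro q hq
        have : q.1 ≤ M := hM (Finset.mem_coe.2 (List.mem_toFinset.2 (List.mem_map.2 ⟨q, hq, rfl⟩)))
        exact ⟨hC _ (by omega) (hl q hq).1, (hl q hq).2⟩
      have hm : (x, y) ∈ app V (pos C) := ⟨l, hlC, hv⟩
      rcases h.1 x y hm with h' | h'
      · exact hw.1 h'.1 h'.2
      · exact hw.2 h'.1 h'.2
  obtain ⟨m, hnm, hm⟩ := h2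
  have hP0 : PrimrecPred fun q : ℕ × ℕ => q.2 = 0 := Primrec.eq.comp Primrec.snd (Primrec.const 0)
  set S : Set ℕ := {x | (x, 1) ∈ app V {q | q.2 = 0}} with hS
  have hSre : REPred fun x => x ∈ S :=
    REPred.comp' (f := fun x : ℕ => (x, 1)) (re_app hV hP0)
      (Primrec.id.pair (Primrec.const 1)).to_comp
  have hSD : ∀ C : Set ℕ, D1 C → GD C (app V {q | q.2 = 0}) → D1 S ∧ S ⊆ C := by
    intro C hC h
    refine ⟨D1.mono (h.2.inter hC) ?_, fun x hx => ?_⟩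
    · rintro x ⟨⟨y, hy⟩, hx⟩
      rcases h.1 x y hy with h' | h'
      · rw [h'.2] at hy; exact hy
      · exact absurd hx h'.1
    · rcases h.1 x 1 hx with h' | h'
      · exact h'.1
      · exact absurd h'.2 one_ne_zero
  by_cases hD : D1 S
  · have : ∃ y, y ∈ S ∧ m ≤ y ∧ y ∉ B := by
      by_contra hc
      push Not at hc
      refine hB (gc_of_re (S := S ∩ Set.Ici m) ?_ (fun x hx => hc x hx.1 hx.2)
        (hD.inter (d1_Ici m)))
      refine (REPred.and_bool hSre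
        (Primrec.nat_le.comp (Primrec.const m) Primrec.id).decide.to_comp).of_eq fun x => ?_
      simp [and_comm]
    obtain ⟨y, hy1, hy2, hy3⟩ := this
    refine ⟨(insert y F, m), ?_, Finset.subset_insert _ _, hnm, ?_, fun C hC hCD => ⟨?_, ?_⟩⟩
    · intro x hx
      rcases Finset.mem_insert.1 hx with rfl | hx
      · exact hy3
      · exact hs x hx
    · intro x hx hxm
      rcases Finset.mem_insert.1 hx with rfl | hx
      · exact absurd hxm (not_lt.2 hy2)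
      · exact hx
    · refine hm C (fun x hx => hC.1 x (Finset.mem_insert_of_mem hx)) fun x hx hxF => ?_
      refine hC.2 x hx fun h => ?_
      rcases Finset.mem_insert.1 h with rfl | h
      · exact absurd hx (not_lt.2 hy2)
      · exact hxF h
    · exact fun h => hC.1 y (Finset.mem_insert_self _ _) ((hSD C hCD h).2 hy1)
  · exact ⟨(F, m), hs, subset_rfl, hnm, fun x hx _ => hx, fun C hC hCD =>
      ⟨hm C hC.1 hC.2, fun h => hD (hSD C hCD h).1⟩⟩

theorem no_minimal {A : Set ℕ} (hA : ¬ Red A ∅) : ∃ C, Red C A ∧ ¬ Red C ∅ ∧ ¬ Red A C := by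
  obtain ⟨B, hB, hD, hC⟩ := exists_base hA
  have hre : ∀ e : ℕ, REPred fun x : List (ℕ × ℕ) × (ℕ × ℕ) => W e (Encodable.encode x) := by
    intro e
    apply REPred.ex (c := fun x u => Ws e u (Encodable.encode x))
    apply Primrec.to_comp
    exact primrec_Ws.comp (f := fun q : ℕ × ℕ × ℕ => Ws q.1 q.2.1 q.2.2)
      (g := fun q : (List (ℕ × ℕ) × (ℕ × ℕ)) × ℕ => (e, q.2, Encodable.encode q.1))
      ((Primrec.const e).pair (Primrec.snd.pair (Primrec.encode.comp Primrec.fst)))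
  choose nx h1 h2 h3 h4 h5 using fun (e : ℕ) (s : {s : Finset ℕ × ℕ // ∀ x ∈ s.1, x ∉ B}) =>
    step hA hB (hre e) s.1 s.2
  let s : ℕ → {s : Finset ℕ × ℕ // ∀ x ∈ s.1, x ∉ B} := fun k =>
    Nat.rec ⟨(∅, 0), by simp⟩ (fun e t => ⟨nx e t, h1 e t⟩) k
  have hs : ∀ e, (s (e + 1)).1 = nx e (s e) := fun _ => rfl
  have key : ∀ j k, j ≤ k → (s j).1.1 ⊆ (s k).1.1 ∧ (s j).1.2 ≤ (s k).1.2 ∧
      ∀ x ∈ (s k).1.1, x < (s j).1.2 → x ∈ (s j).1.1 := by
    intro j k hjk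
    induction k, hjk using Nat.le_induction with
    | base => exact ⟨subset_rfl, le_rfl, fun x hx _ => hx⟩
    | succ k _ ih =>
      rw [hs]
      refine ⟨ih.1.trans (h2 k _), ih.2.1.trans (h3 k _), fun x hx hlt => ih.2.2 x ?_ hlt⟩
      exact h4 k _ x hx (lt_of_lt_of_le hlt (ih.2.1.trans (h3 k _)))
  let C : Set ℕ := {x | ∀ k, x ∉ (s k).1.1}
  have hBC : B ⊆ C := fun x hx k hk => (s k).2 x hk hx
  have hCD : D1 C := hD.mono hBC
  have hfol : ∀ j, Follows C (s j).1 := by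
    intro j
    refine ⟨fun x hx hc => hc j hx, fun x hx hxF k hk => hxF ?_⟩
    rcases le_total j k with h | h
    · exact (key j k h).2.2 x hk hx
    · exact (key k j h).1 hk
  have hreq : ∀ V : List (ℕ × ℕ) × (ℕ × ℕ) → Prop, REPred V →
      ¬ GD A (app V (pos C)) ∧ ¬ GD C (app V {q | q.2 = 0}) := by
    intro V hV
    obtain ⟨e, he⟩ := re_index hV
    have : V = fun x => W e (Encodable.encode x) := funext fun x => propext (he x)
    rw [this]
    exact h5 e (s e) C (hfol (e + 1)) hCD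
  refine ⟨C, hC C hBC, ?_, ?_⟩
  · rintro ⟨V, hV, h⟩
    refine (hreq V hV).2 (h _ ⟨fun x y hxy => Or.inr ⟨fun h => h, hxy⟩, ?_⟩)
    exact d1_univ.mono fun x _ => ⟨0, rfl⟩
  · rintro ⟨V, hV, h⟩
    exact (hreq V hV).1 (h _ (gd_pos hCD))

end Pool.Agent.H946Z.Gen
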